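import Pool.Agent.helper62.VN.SpecE
import Pool.Agent.helper78.VQE.HOF

/-!
# MP_07c750_an, project VN, row NHO: the Hopf argument in local coordinates (adaptation of helper78/VQE/HOF)
-/

set_option autoImplicit false

open scoped MatrixGroups ContDiff Topology UpperHalfPlane
open UpperHalfPlane MeasureTheory Filter Set

namespace Pool.Agent.VNE

open Pool.Agent.RS Pool.Agent.VQE

theorem NHO_proof (h1 : VQE.NMB_stmt) (h2 : VQE.NUL_stmt) (h3 : VQE.NUI_stmt) (h4 : NTP_stmt) (h5 : NAV_stmt) (h6 : NRV_stmt)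
    (h7 : NAL_stmt) (h8 : NLC_stmt) (h9 : NLS_stmt) : NHO_stmt := by
  intro K hK
  obtain ⟨C1, ε1, hC1, hε1, H1⟩ := h4 K hK
  obtain ⟨C2, ε2, hC2, hε2, H2⟩ := h5 K hK
  obtain ⟨C3, ε3, hC3, hε3, H3⟩ := h7 K hK
  obtain ⟨C4, ε4, hC4, hε4, H4⟩ := h8 K hK
  obtain ⟨C5, ε5, hC5, hε5, H5⟩ := h9 K hK
  obtain ⟨ε, hε, e1, e2, e3, e4, e5⟩ : ∃ ε : ℝ, 0 < ε ∧ ε ≤ ε1 ∧ ε ≤ ε2 ∧ ε ≤ ε3 ∧ ε ≤ ε4 ∧ ε ≤ ε5 := by
    refine ⟨min ε1 (min ε2 (min ε3 (min ε4 ε5))), lt_min hε1 (lt_min hε2 (lt_min hε3 (lt_min hε4 hε5))), min_le_left _ _,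
      (min_le_right _ _).trans (min_le_left _ _), ((min_le_right _ _).trans (min_le_right _ _)).trans (min_le_left _ _),
      (((min_le_right _ _).trans (min_le_right _ _)).trans (min_le_right _ _)).trans (min_le_left _ _),
      (((min_le_right _ _).trans (min_le_right _ _)).trans (min_le_right _ _)).trans (min_le_right _ _)⟩
  obtain ⟨C, hC, f1, f3, f4, f5⟩ : ∃ C : ℝ, 1 ≤ C ∧ C1 ≤ C ∧ C3 ≤ C ∧ C4 ≤ C ∧ C5 ≤ C := by
    refine ⟨max C1 (max C3 (max C4 C5)), hC1.trans (le_max_left _ _), le_max_left _ _, (le_max_left _ _).trans (le_max_right _ _),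
      ((le_max_left _ _).trans (le_max_right _ _)).trans (le_max_right _ _), ((le_max_right _ _).trans (le_max_right _ _)).trans (le_max_right _ _)⟩
  have hC0 : 0 < C := by linarith
  obtain ⟨r, hr, hrC⟩ : ∃ r : ℝ, 0 < r ∧ r = ε / C := ⟨ε / C, by positivity, rfl⟩
  have hle : ∀ c : ℝ, 1 ≤ c → c ≤ C → r ≤ ε / c := by
    intro c hc hcC
    rw [hrC]
    exact div_le_div_of_nonneg_left hε.le (by linarith) hcC
  have r1 := hle C1 hC1 f1
  have r3 := hle C3 hC3 f3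
  have r4 := hle C4 hC4 f4
  have r5 := hle C5 hC5 f5
  refine ⟨r / C5, by positivity, ?_⟩
  intro Γ L X h u ns hL hX hG hT hu hns hae
  have hsf := HOF_sfin
  have hXr : HF K (rX X) := (h6 K X hK hX).1
  have hUb : ∀ (y : ℝ) (g : SL(2, ℝ)), UbN ε X y g = SbN ε (rX X) (-y) (g * kJ) * kJ⁻¹ := (h6 K X hK hX).2.2 ε
  have hFl : Flw X.p X.q X.f := hX.flw
  have hTr := HOF_Tf h1 hT
  obtain ⟨A1, -, -, -, A5⟩ := H1 ε X hε e1 hX
  obtain ⟨B1, -, -, -, B5⟩ := H1 ε (rX X) hε e1 hXr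
  -- the exceptional set
  set Ω : Set SL(2, ℝ) := {g | Tendsto (fun k => avf X.f h (ns k) g) atTop (𝓝 (u g)) ∧
    Tendsto (fun k => avf (fun t => X.f (-t)) h (ns k) g) atTop (𝓝 (u g))} with hΩ
  set N : Set SL(2, ℝ) := toMeasurable mG Ωᶜ with hNdef
  have hN0 : mG N = 0 := by
    rw [hNdef, measure_toMeasurable]
    exact hae
  have hNm : MeasurableSet N := measurableSet_toMeasurable _ _
  have hNΩ : ∀ g, g ∉ N → g ∈ Ω := by
    intro g hg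
    by_contra hno
    exact hg (subset_toMeasurable mG Ωᶜ hno)
  set Q : Set (Fin 3 → ℝ) := cu r with hQdef
  have hQm : MeasurableSet Q := measurableSet_Icc
  have hQb : ∀ z ∈ Q, ∀ i, |z i| ≤ r := by
    intro z hz i
    rw [abs_le]
    exact ⟨hz.1 i, hz.2 i⟩
  -- the three steps
  have s1 : ∀ (t : ℝ) (g : SL(2, ℝ)), g ∉ N → X.f t g ∉ N → u (X.f t g) = u g := by
    intro t g hg hg'
    apply HOF_lim _ _ ns hns _ _ (2 * |t|) (hNΩ _ hg').1 (hNΩ _ hg).1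
    intro k hk
    exact HOF_shift hFl hT t g (ns k) (by exact_mod_cast hk)
  have s2 : ∀ (y : ℝ) (g : SL(2, ℝ)), |y| ≤ r → g ∉ N → UbN ε X y g ∉ N → u (UbN ε X y g) = u g := by
    intro y g hy hg hg'
    obtain ⟨x', y', hsm, hx0, hy0⟩ := (B1 (g * kJ) (-y) (by rw [abs_neg]; exact hy.trans r1)).1
    apply HOF_lim _ _ ns hns _ _ (C2 * (L + 1)) (hNΩ _ hg').2 (hNΩ _ hg).2
    intro k hk
    have h10 := H2 Γ ε L (rX X) (fun g => h (g * kJ⁻¹)) (g * kJ) x' y' hε e2 hL hXr hTr hsm (ns k) (by exact_mod_cast hk)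
    have e1 : g * kJ * pj (rX X) (g * kJ) (x' 0) (y' 0) = UbN ε X y g * kJ := by
      rw [hx0, hy0, hUb, inv_mul_cancel_right]
      rfl
    have e0 : (rX X).f = rf X.f := rfl
    rw [e1, e0, HOF_avr, HOF_avr] at h10
    exact h10
  have s3 : ∀ (x : ℝ) (g : SL(2, ℝ)), |x| ≤ r → g ∉ N → SbN ε X x g ∉ N → u (SbN ε X x g) = u g := by
    intro x g hx hg hg'
    obtain ⟨x', y', hsm, hx0, hy0⟩ := (A1 g x (hx.trans r1)).1
    apply HOF_lim _ _ ns hns _ _ (C2 * (L + 1)) (hNΩ _ hg').1 (hNΩ _ hg).1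
    intro k hk
    have h10 := H2 Γ ε L X h g x' y' hε e2 hL hX hT hsm (ns k) (by exact_mod_cast hk)
    have e1 : g * pj X g (x' 0) (y' 0) = SbN ε X x g := by
      rw [hx0, hy0]
      rfl
    rw [e1] at h10
    exact h10
  -- null sets
  have n1 : ∀ (t : ℝ) (M : Set SL(2, ℝ)), mG M = 0 → mG ((X.f t) ⁻¹' M) = 0 := by
    intro t M hM
    exact (hG.mp t).quasiMeasurePreserving.preimage_null hM
  have n2 : ∀ (y : ℝ) (M : Set SL(2, ℝ)), |y| ≤ r → mG M = 0 → mG ((UbN ε X y) ⁻¹' M) = 0 := by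
    intro y M hy hM
    obtain ⟨_, hc, hb⟩ := H3 ε X y hε e3 hX (hy.trans r3)
    apply h2 (UbN ε X y) (1 / 8) (1 / 2) (by norm_num) (by norm_num) hc _ M hM
    intro g E hE
    have := (hb g E hE).2.2.1
    linarith
  have n3 : ∀ (x : ℝ) (M : Set SL(2, ℝ)), |x| ≤ r → mG M = 0 → mG ((SbN ε X x) ⁻¹' M) = 0 := by
    intro x M hx hM
    obtain ⟨hc, _, hb⟩ := H3 ε X x hε e3 hX (hx.trans r3)
    apply h2 (SbN ε X x) (1 / 8) (1 / 2) (by norm_num) (by norm_num) hc _ M hM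
    intro g E hE
    have := (hb g E hE).1
    linarith
  -- continuity
  have c1 : ContinuousOn (fun x : (Fin 3 → ℝ) × SL(2, ℝ) => X.f (x.1 0) x.2) (Q ×ˢ univ) := by
    apply Continuous.continuousOn
    have h10 : Continuous (fun x : (Fin 3 → ℝ) × SL(2, ℝ) => ((x.1 0, x.2) : ℝ × SL(2, ℝ))) :=
      ((continuous_apply 0).comp continuous_fst).prodMk continuous_snd
    exact hFl.cont.comp h10
  have cU : ContinuousOn (fun x : SL(2, ℝ) × ℝ => UbN ε X x.2 x.1) (univ ×ˢ Icc (-r) r) := by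
    have h11 : ContinuousOn (fun x : SL(2, ℝ) × ℝ => SbN ε (rX X) (-x.2) (x.1 * kJ)) (univ ×ˢ Icc (-r) r) := by
      apply B5.comp (f := fun x : SL(2, ℝ) × ℝ => ((x.1 * kJ, -x.2) : SL(2, ℝ) × ℝ))
      · apply Continuous.continuousOn
        exact (continuous_fst.mul continuous_const).prodMk continuous_snd.neg
      · rintro ⟨g, y⟩ ⟨_, hy⟩
        refine ⟨mem_univ _, ?_⟩
        have hy' : y ∈ Icc (-r) r := hy
        show -y ∈ Icc (-(ε / C1)) (ε / C1)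
        exact ⟨by linarith [hy'.2], by linarith [hy'.1]⟩
    have h12 : (fun x : SL(2, ℝ) × ℝ => UbN ε X x.2 x.1) = fun x => SbN ε (rX X) (-x.2) (x.1 * kJ) * kJ⁻¹ := by
      funext x
      exact hUb x.2 x.1
    rw [h12]
    exact h11.mul continuousOn_const
  have c2 : ContinuousOn (fun x : (Fin 3 → ℝ) × SL(2, ℝ) => UbN ε X (x.1 1) (X.f (x.1 0) x.2)) (Q ×ˢ univ) := by
    apply cU.comp (f := fun x : (Fin 3 → ℝ) × SL(2, ℝ) => ((X.f (x.1 0) x.2, x.1 1) : SL(2, ℝ) × ℝ))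
    · exact c1.prodMk (Continuous.continuousOn ((continuous_apply 1).comp continuous_fst))
    · rintro ⟨z, g⟩ ⟨hz, _⟩
      refine ⟨mem_univ _, ?_⟩
      have hz' := hQb z hz 1
      rw [abs_le] at hz'
      show z 1 ∈ Icc (-r) r
      exact ⟨hz'.1, hz'.2⟩
  have hLC := H4 ε r X hε e4 hr r4 hX
  have c3 : ContinuousOn (fun x : (Fin 3 → ℝ) × SL(2, ℝ) => psN ε X x.2 x.1) (Q ×ˢ univ) := by
    apply hLC.1.comp (f := fun x : (Fin 3 → ℝ) × SL(2, ℝ) => ((x.2, x.1) : SL(2, ℝ) × (Fin 3 → ℝ)))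
    · exact (continuous_snd.prodMk continuous_fst).continuousOn
    · rintro ⟨z, g⟩ ⟨hz, _⟩
      exact ⟨mem_univ _, hz⟩
  -- Fubini
  have hall : ∀ᵐ g ∂mG, ∀ᵐ z ∂(volume : Measure (Fin 3 → ℝ)), (z ∈ Q → X.f (z 0) g ∉ N) ∧
      (z ∈ Q → UbN ε X (z 1) (X.f (z 0) g) ∉ N) ∧ (z ∈ Q → psN ε X g z ∉ N) := by
    have hm : MeasurableSet {x : (Fin 3 → ℝ) × SL(2, ℝ) | (x.1 ∈ Q → X.f (x.1 0) x.2 ∉ N) ∧
        (x.1 ∈ Q → UbN ε X (x.1 1) (X.f (x.1 0) x.2) ∉ N) ∧ (x.1 ∈ Q → psN ε X x.2 x.1 ∉ N)} :=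
      (HOF_meas _ Q hQm c1 N hNm).inter ((HOF_meas _ Q hQm c2 N hNm).inter (HOF_meas _ Q hQm c3 N hNm))
    rw [← Measure.ae_ae_comm hm]
    apply Eventually.of_forall
    intro z
    by_cases hz : z ∈ Q
    · have a1 : ∀ᵐ g ∂mG, X.f (z 0) g ∉ N := by
        rw [ae_iff]
        simp only [not_not]
        exact n1 (z 0) N hN0
      have a2 : ∀ᵐ g ∂mG, UbN ε X (z 1) (X.f (z 0) g) ∉ N := by
        rw [ae_iff]
        simp only [not_not]
        exact n1 (z 0) _ (n2 (z 1) N (hQb z hz 1) hN0)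
      have a3 : ∀ᵐ g ∂mG, psN ε X g z ∉ N := by
        rw [ae_iff]
        simp only [not_not]
        exact n1 (z 0) _ (n2 (z 1) _ (hQb z hz 1) (n3 (z 2) N (hQb z hz 2) hN0))
      filter_upwards [a1, a2, a3] with g b1 b2 b3
      exact ⟨fun _ => b1, fun _ => b2, fun _ => b3⟩
    · apply Eventually.of_forall
      intro g
      exact ⟨fun hz' => absurd hz' hz, fun hz' => absurd hz' hz, fun hz' => absurd hz' hz⟩
  have hN1 : ∀ᵐ g ∂mG, g ∉ N := by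
    rw [ae_iff]
    simp only [not_not]
    exact hN0
  filter_upwards [hall, hN1] with g hg hgN
  set Z : Set (Fin 3 → ℝ) := {z | ¬((z ∈ Q → X.f (z 0) g ∉ N) ∧
      (z ∈ Q → UbN ε X (z 1) (X.f (z 0) g) ∉ N) ∧ (z ∈ Q → psN ε X g z ∉ N))} with hZ
  have hZ0 : volume Z = 0 := hg
  have hcont : ContinuousOn (fun z : Fin 3 → ℝ => psN ε X g z) Q := by
    apply hLC.1.comp (f := fun z : Fin 3 → ℝ => ((g, z) : SL(2, ℝ) × (Fin 3 → ℝ)))
    · exact (continuous_const.prodMk continuous_id).continuousOn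
    · intro z hz
      exact ⟨mem_univ _, hz⟩
  obtain ⟨us, uu, -, -, -, -, hlip⟩ := hLC.2 g
  have hnull := h3 (fun z : Fin 3 → ℝ => psN ε X g z) r C4 hr hcont
    (fun z hz z' hz' => (hlip z hz z' hz').1) Z hZ0
  have hn' : ∀ᵐ g' ∂mG, g' ∉ (fun z : Fin 3 → ℝ => psN ε X g z) '' (Z ∩ Q) := by
    rw [ae_iff]
    simp only [not_not]
    exact hnull
  filter_upwards [hn'] with g' hg' hnm
  obtain ⟨z, hz, hzg⟩ := H5 ε r X g (g⁻¹ * g') hε e5 hr r5 hX hnm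
  rw [mul_inv_cancel_left] at hzg
  have hzZ : z ∉ Z := by
    intro hzz
    exact hg' ⟨z, ⟨hzz, hz⟩, hzg⟩
  obtain ⟨b1, b2, b3⟩ := not_not.1 hzZ
  have k1 := s1 (z 0) g hgN (b1 hz)
  have k2 := s2 (z 1) (X.f (z 0) g) (hQb z hz 1) (b1 hz) (b2 hz)
  have k3 := s3 (z 2) (UbN ε X (z 1) (X.f (z 0) g)) (hQb z hz 2) (b2 hz) (b3 hz)
  have k4 : u (psN ε X g z) = u g := by
    unfold psN
    rw [k3, k2, k1]
  rw [← hzg]
  exact k4

end Pool.Agent.VNE
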