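import Pool.Agent.helper62.VN.SpecE

/-!
# MP_07c750_an, project VN, row NRV: reversal
-/

set_option autoImplicit false

open scoped MatrixGroups ContDiff Topology UpperHalfPlane
open UpperHalfPlane MeasureTheory Filter Set

namespace Pool.Agent.VNE

open Pool.Agent.RS Pool.Agent.VQE

variable (X : Fd) (g : SL(2, ℝ)) (J W : ℝ)

theorem NRV_p : (rX X).p (g * kJ) = X.p g := by
  show X.p (g * kJ * kJ⁻¹) = X.p g
  rw [mul_inv_cancel_right]

theorem NRV_q : (rX X).q (g * kJ) = -X.q g := by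
  show -X.q (g * kJ * kJ⁻¹) = -X.q g
  rw [mul_inv_cancel_right]

theorem NRV_m : (rX X).m (g * kJ) = -X.m g := by
  show -X.m (g * kJ * kJ⁻¹) = -X.m g
  rw [mul_inv_cancel_right]

theorem NRV_m1 : (rX X).m1 (g * kJ) = X.m1 g := by
  show X.m1 (g * kJ * kJ⁻¹) = X.m1 g
  rw [mul_inv_cancel_right]

theorem NRV_b : bj (rX X) (g * kJ) (-J) W = -cj X g J W := by
  unfold bj cj
  rw [NRV_m, NRV_p]
  ring

theorem NRV_c : cj (rX X) (g * kJ) (-J) W = -bj X g J W := by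
  unfold bj cj
  rw [NRV_m, NRV_p]
  ring

theorem NRV_dg (b c : ℝ) : dg (-c) (-b) = kJ⁻¹ * dg b c * kJ := by
  have e1 : 1 + -c * -b = 1 + b * c := by ring
  by_cases h : 0 ≤ 1 + b * c
  · have h' : 0 ≤ 1 + -c * -b := by rw [e1]; exact h
    unfold dg
    rw [dif_pos h, dif_pos h']
    apply Subtype.ext
    rw [Matrix.SpecialLinearGroup.coe_mul, Matrix.SpecialLinearGroup.coe_mul, Matrix.SpecialLinearGroup.coe_inv]
    show !![√(1 + -c * -b), -c; -b, √(1 + -c * -b)] = (!![(0 : ℝ), 1; -1, 0]).adjugate * !![√(1 + b * c), b; c, √(1 + b * c)] * !![0, 1; -1, 0]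
    rw [e1, Matrix.adjugate_fin_two]
    ext i j
    fin_cases i <;> fin_cases j <;> simp [Matrix.mul_apply, Fin.sum_univ_two]
  · have h' : ¬ 0 ≤ 1 + -c * -b := by rw [e1]; exact h
    unfold dg
    rw [dif_neg h, dif_neg h']
    group

theorem NRV_pj : pj (rX X) (g * kJ) (-J) W = kJ⁻¹ * pj X g J W * kJ := by
  unfold pj
  rw [NRV_b, NRV_c, NRV_dg]

theorem NRV_gd (b c : ℝ) : g * kJ * (kJ⁻¹ * dg b c * kJ) = g * dg b c * kJ := by group

theorem NRV_sg (b c : ℝ) : sg (rX X).p (rX X).q (g * kJ) (-c) (-b) = sg X.p X.q g b c := by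
  have e1 : 1 + -c * -b = 1 + b * c := by ring
  unfold sg
  rw [NRV_dg, NRV_gd, NRV_p, NRV_p, NRV_q, NRV_q, e1]
  congr 1 <;> ring

theorem NRV_hu (b c : ℝ) : hu (rX X).p (rX X).q (g * kJ) (-c) (-b) = -hv X.p X.q g b c := by
  have e1 : 1 + -c * -b = 1 + b * c := by ring
  unfold hu hv
  rw [NRV_sg, NRV_dg, NRV_gd, NRV_p, NRV_p, NRV_q, NRV_q, e1]
  ring

theorem NRV_hv (b c : ℝ) : hv (rX X).p (rX X).q (g * kJ) (-c) (-b) = -hu X.p X.q g b c := by
  have e1 : 1 + -c * -b = 1 + b * c := by ring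
  unfold hu hv
  rw [NRV_sg, NRV_dg, NRV_gd, NRV_p, NRV_p, NRV_q, NRV_q, e1]
  ring

theorem NRV_FJ : FJ (rX X) (g * kJ) (-J) W = FJ X g J W := by
  unfold FJ uj vj
  rw [NRV_b, NRV_c, NRV_hu, NRV_hv, NRV_p, NRV_m]
  ring

theorem NRV_FW : FW (rX X) (g * kJ) (-J) W = -FW X g J W := by
  unfold FW uj vj
  rw [NRV_b, NRV_c, NRV_hu, NRV_hv, NRV_m, NRV_m1]
  ring

theorem NRV_FJ' : FJ (rX X) g J W = FJ X (g * kJ⁻¹) (-J) W := by
  have h := NRV_FJ X (g * kJ⁻¹) (-J) W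
  rw [inv_mul_cancel_right, neg_neg] at h
  exact h

theorem NRV_FW' : FW (rX X) g J W = -FW X (g * kJ⁻¹) (-J) W := by
  have h := NRV_FW X (g * kJ⁻¹) (-J) W
  rw [inv_mul_cancel_right, neg_neg] at h
  exact h

theorem NRV_rf (t : ℝ) : (rX X).f t g * kJ⁻¹ = X.f (-t) (g * kJ⁻¹) := by
  show X.f (-t) (g * kJ⁻¹) * kJ * kJ⁻¹ = _
  rw [mul_inv_cancel_right]

theorem NRV_conj (E : SL(2, ℝ)) : g * E * kJ⁻¹ = g * kJ⁻¹ * (kJ * E * kJ⁻¹) := by group

theorem NRV_proof (h1 : VQE.NMB_stmt) (h2 : VQE.REV_stmt) : NRV_stmt := by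
  intro K X hK hX
  obtain ⟨-, -, -, hnm, -⟩ := h1
  refine ⟨?_, fun g J W => NRV_pj X g J W, ?_⟩
  · exact
      { flw := h2.2.1 X.p X.q X.f hX.flw
        pb := fun g => hX.pb (g * kJ⁻¹)
        qb := fun g => by
          obtain ⟨a1, a2, a3⟩ := hX.qb (g * kJ⁻¹)
          refine ⟨?_, ?_, a3⟩
          · show |-X.q (g * kJ⁻¹)| ≤ K
            rw [abs_neg]
            exact a1
          · show |-X.m (g * kJ⁻¹)| ≤ K
            rw [abs_neg]
            exact a2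
        kb := fun g => hX.kb (g * kJ⁻¹)
        lip := fun g D => by
          obtain ⟨a1, a2, a3, a4⟩ := hX.lip (g * kJ⁻¹) (kJ * D * kJ⁻¹)
          rw [hnm, ← NRV_conj] at a1 a2 a3 a4
          refine ⟨a1, ?_, ?_, a4⟩
          · show |-X.q (g * D * kJ⁻¹) - -X.q (g * kJ⁻¹)| ≤ K * nm D
            rw [show -X.q (g * D * kJ⁻¹) - -X.q (g * kJ⁻¹) = -(X.q (g * D * kJ⁻¹) - X.q (g * kJ⁻¹)) by ring, abs_neg]
            exact a2
          · show |-X.m (g * D * kJ⁻¹) - -X.m (g * kJ⁻¹)| ≤ K * nm D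
            rw [show -X.m (g * D * kJ⁻¹) - -X.m (g * kJ⁻¹) = -(X.m (g * D * kJ⁻¹) - X.m (g * kJ⁻¹)) by ring, abs_neg]
            exact a3
        dp := fun t g => by
          have e1 : (fun s => (rX X).p ((rX X).f s g)) = fun s => X.p (X.f (-s) (g * kJ⁻¹)) := by
            funext s
            show X.p ((rX X).f s g * kJ⁻¹) = _
            rw [NRV_rf]
          have e2 : (rX X).p ((rX X).f t g) ^ 2 * (rX X).m ((rX X).f t g) =
              X.p (X.f (-t) (g * kJ⁻¹)) ^ 2 * X.m (X.f (-t) (g * kJ⁻¹)) * -1 := by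
            show X.p ((rX X).f t g * kJ⁻¹) ^ 2 * -X.m ((rX X).f t g * kJ⁻¹) = _
            rw [NRV_rf]
            ring
          rw [e1, e2]
          exact (hX.dp (-t) (g * kJ⁻¹)).comp t (hasDerivAt_neg t)
        dm := fun t g => by
          have e1 : (fun s => (rX X).m ((rX X).f s g)) = fun s => -X.m (X.f (-s) (g * kJ⁻¹)) := by
            funext s
            show -X.m ((rX X).f s g * kJ⁻¹) = _
            rw [NRV_rf]
          have e2 : (rX X).m1 ((rX X).f t g) = -(X.m1 (X.f (-t) (g * kJ⁻¹)) * -1) := by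
            show X.m1 ((rX X).f t g * kJ⁻¹) = _
            rw [NRV_rf]
            ring
          rw [e1, e2]
          exact ((hX.dm (-t) (g * kJ⁻¹)).comp t (hasDerivAt_neg t)).neg
        f1 := fun g J W J' W' ha hb => by
          obtain ⟨a1, a2⟩ := hX.f1 (g * kJ⁻¹) (-J) W (-J') W' (by rw [abs_neg]; exact ha) (by rw [abs_neg]; exact hb)
          have e3 : |-J - -J'| = |J - J'| := by
            rw [show -J - -J' = -(J - J') by ring, abs_neg]
          rw [abs_neg, abs_neg, e3] at a1 a2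
          rw [NRV_FJ', NRV_FJ', NRV_FW', NRV_FW']
          refine ⟨a1, ?_⟩
          have e4 : -FW X (g * kJ⁻¹) (-J) W - -FW X (g * kJ⁻¹) (-J') W' - (rX X).κ g * (J - J') =
              -(FW X (g * kJ⁻¹) (-J) W - FW X (g * kJ⁻¹) (-J') W' - X.κ (g * kJ⁻¹) * (-J - -J')) := by
            show -FW X (g * kJ⁻¹) (-J) W - -FW X (g * kJ⁻¹) (-J') W' - X.κ (g * kJ⁻¹) * (J - J') = _
            ring
          rw [e4, abs_neg]
          exact a2
        f2 := fun g E J W ha => by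
          obtain ⟨a1, a2⟩ := hX.f2 (g * kJ⁻¹) (kJ * E * kJ⁻¹) (-J) W (by rw [abs_neg]; exact ha)
          rw [hnm, ← NRV_conj, abs_neg] at a1 a2
          rw [NRV_FJ', NRV_FJ', NRV_FW', NRV_FW']
          refine ⟨a1, ?_⟩
          rw [show -FW X (g * E * kJ⁻¹) (-J) W - -FW X (g * kJ⁻¹) (-J) W = -(FW X (g * E * kJ⁻¹) (-J) W - FW X (g * kJ⁻¹) (-J) W) by ring, abs_neg]
          exact a2 }
  · intro ε y g
    unfold UbN SbN unn
    rw [NRV_pj]
    group

end Pool.Agent.VNE
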